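import Mathlib

/-!
# A greedy inequality for linear matroids
-/

set_option autoImplicit false

namespace Pool.Agent.J6H91.TZ

/-- Let `s |J| ≤ s' rank(v_j : j ∈ J)` for all `J`. Then for all `ℓ ≥ 0` on `J` there is a linearly independent
part `I ⊆ J` with `s ∑_J ℓ ≤ s' ∑_I ℓ`. -/
theorem exists_greedy {V ι : Type} [AddCommGroup V] [Module ℝ V] [DecidableEq ι] (v : ι → V)
    {s s' : ℝ} (hs' : 0 ≤ s')
    (hr : ∀ J : Finset ι, s * J.card ≤
      s' * Module.finrank ℝ (Submodule.span ℝ (v '' (J : Set ι)))) :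
    ∀ (n : ℕ) (J : Finset ι), J.card = n → ∀ ℓ : ι → ℝ, (∀ j ∈ J, 0 ≤ ℓ j) →
      ∃ I ⊆ J, LinearIndepOn ℝ v (I : Set ι) ∧ s * ∑ j ∈ J, ℓ j ≤ s' * ∑ j ∈ I, ℓ j := by
  intro n
  induction n with
  | zero =>
    intro J hJ ℓ _
    rw [Finset.card_eq_zero] at hJ
    subst hJ
    refine ⟨∅, le_rfl, ?_, by simp⟩
    rw [Finset.coe_empty]
    exact linearIndepOn_empty ℝ v
  | succ n ih =>
    intro J hJ ℓ hℓ
    have hne : J.Nonempty := by
      rw [← Finset.card_pos, hJ]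
      exact Nat.succ_pos n
    obtain ⟨j₀, hj₀, hmin⟩ := Finset.exists_min_image J ℓ hne
    have hc : 0 ≤ ℓ j₀ := hℓ j₀ hj₀
    obtain ⟨I', hI', hind, hle⟩ := ih (J.erase j₀) (by rw [Finset.card_erase_of_mem hj₀, hJ]; rfl)
      (fun j => ℓ j - ℓ j₀) (fun j hj => sub_nonneg.2 (hmin j (Finset.mem_of_mem_erase hj)))
    have hI'J : (I' : Set ι) ⊆ (J : Set ι) := by
      intro i hi
      exact Finset.mem_of_mem_erase (hI' hi)
    obtain ⟨b, hbJ, hI'b, hspan, hbind⟩ := exists_linearIndepOn_extension hind hI'J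
    have hbfin : b.Finite := J.finite_toSet.subset hbJ
    set I : Finset ι := hbfin.toFinset with hI
    have hIc : (I : Set ι) = b := hbfin.coe_toFinset
    have hIJ : I ⊆ J := by
      intro i hi
      have : i ∈ b := by rwa [← hIc]
      exact hbJ this
    have hI'I : I' ⊆ I := by
      intro i hi
      have : i ∈ (I : Set ι) := by rw [hIc]; exact hI'b hi
      exact this
    have hcard : Module.finrank ℝ (Submodule.span ℝ (v '' (J : Set ι))) = I.card := by
      have h1 : Submodule.span ℝ (v '' (J : Set ι)) = Submodule.span ℝ (v '' b) := by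
        refine le_antisymm (Submodule.span_le.2 hspan) (Submodule.span_mono (Set.image_mono hbJ))
      rw [h1, ← hIc]
      have hli : LinearIndependent ℝ (fun i : I => v i) := by
        rw [← hIc] at hbind
        exact hbind
      have h2 := finrank_span_eq_card hli
      have h3 : Set.range (fun i : I => v i) = v '' (I : Set ι) := by
        ext x
        simp
      rw [h3] at h2
      rw [h2, Fintype.card_coe]
    refine ⟨I, hIJ, by rw [hIc]; exact hbind, ?_⟩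
    have h1 : ∑ j ∈ J, ℓ j = ∑ j ∈ J.erase j₀, (ℓ j - ℓ j₀) + J.card * ℓ j₀ := by
      have h2 : ∑ j ∈ J, ℓ j = ∑ j ∈ J, (ℓ j - ℓ j₀) + J.card * ℓ j₀ := by
        rw [Finset.sum_sub_distrib, Finset.sum_const, nsmul_eq_mul]
        ring
      rw [h2, ← Finset.add_sum_erase J _ hj₀, sub_self, zero_add]
    have h2 : ∑ j ∈ I, ℓ j = ∑ j ∈ I, (ℓ j - ℓ j₀) + I.card * ℓ j₀ := by
      rw [Finset.sum_sub_distrib, Finset.sum_const, nsmul_eq_mul]
      ring
    have h3 : ∑ j ∈ I', (ℓ j - ℓ j₀) ≤ ∑ j ∈ I, (ℓ j - ℓ j₀) :=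
      Finset.sum_le_sum_of_subset_of_nonneg hI'I fun i hi _ => sub_nonneg.2 (hmin i (hIJ hi))
    have h4 := hr J
    rw [hcard] at h4
    rw [h1, h2]
    nlinarith [mul_le_mul_of_nonneg_left h3 hs', mul_le_mul_of_nonneg_right h4 hc]

/-- the product form -/
theorem prod_rpow_le {V ι : Type} [AddCommGroup V] [Module ℝ V] [DecidableEq ι] [Fintype ι] (v : ι → V)
    {s s' : ℝ} (hs' : 0 ≤ s')
    (hr : ∀ J : Finset ι, s * J.card ≤
      s' * Module.finrank ℝ (Submodule.span ℝ (v '' (J : Set ι))))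
    (F : Finset (Finset ι)) (hF : ∀ I : Finset ι, LinearIndepOn ℝ v (I : Set ι) → I ∈ F)
    (x : ι → ℝ) (hx0 : ∀ j, 0 < x j) (hx1 : ∀ j, x j ≤ 1) :
    ∏ j, x j ^ (-s) ≤ ∑ I ∈ F, ∏ j ∈ I, x j ^ (-s') := by
  obtain ⟨I, -, hI, hle⟩ := exists_greedy v hs' hr _ Finset.univ rfl (fun j => - Real.log (x j))
    (fun j _ => neg_nonneg.2 (Real.log_nonpos (hx0 j).le (hx1 j)))
  have h1 : ∏ j, x j ^ (-s) = Real.exp (s * ∑ j, - Real.log (x j)) := by
    rw [Finset.mul_sum, Real.exp_sum]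
    refine Finset.prod_congr rfl fun j _ => ?_
    rw [Real.rpow_def_of_pos (hx0 j)]
    congr 1
    ring
  have h2 : ∏ j ∈ I, x j ^ (-s') = Real.exp (s' * ∑ j ∈ I, - Real.log (x j)) := by
    rw [Finset.mul_sum, Real.exp_sum]
    refine Finset.prod_congr rfl fun j _ => ?_
    rw [Real.rpow_def_of_pos (hx0 j)]
    congr 1
    ring
  calc ∏ j, x j ^ (-s) ≤ ∏ j ∈ I, x j ^ (-s') := by
        rw [h1, h2]
        exact Real.exp_le_exp.2 hle
    _ ≤ _ := Finset.single_le_sum (f := fun I : Finset ι => ∏ j ∈ I, x j ^ (-s'))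
        (fun I _ => Finset.prod_nonneg fun j _ => Real.rpow_nonneg (hx0 j).le _) (hF I hI)

end Pool.Agent.J6H91.TZ
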