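import Pool.Agent.J6H91.TZ.Pat.Local
import Pool.Agent.J6H91.TZ.Pat.Greedy

/-!
# Local integrability of the product over all coordinates
-/

set_option autoImplicit false

namespace Pool.Agent.J6H91.TZ

open MeasureTheory Filter Topology
open scoped ENNReal NNReal

variable {m : ℕ} {σ : Type} [Fintype σ] [DecidableEq σ]

/-- the integral for all coordinates -/
theorem local_all {φ : (Fin m → ℝ) → (σ → ℝ)} {u₀ : Fin m → ℝ} (hφ : ContDiffAt ℝ 1 φ u₀)
    {U₁ : Set (Fin m → ℝ)} (hU₁ : U₁ ∈ 𝓝 u₀) (hcont : ContinuousOn φ U₁) {s : ℝ} (hs0 : 0 < s)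
    (hr : ∀ J : Finset σ, J.Nonempty → s * J.card <
      Module.finrank ℝ (Submodule.span ℝ ((fun j => fderiv ℝ (fun u => φ u j) u₀) '' (J : Set σ)))) :
    ∃ W ∈ 𝓝 u₀, ∃ C : ℝ≥0∞, C ≠ ⊤ ∧ ∀ S : Set (Fin m → ℝ), MeasurableSet S → S ⊆ W → ∀ v ∈ S,
      (∀ᵐ u ∂(volume.restrict S), ∀ j, φ u j ≠ φ v j) ∧
      ∫⁻ u in S, ENNReal.ofReal (∏ j, |φ u j - φ v j| ^ (-s)) ≤ C := by
  classical
  set dφ : σ → ((Fin m → ℝ) →L[ℝ] ℝ) := fun j => fderiv ℝ (fun u => φ u j) u₀ with hdφ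
  -- the exponent s'
  obtain ⟨s', hs'1, hs'0, hr'⟩ : ∃ s' : ℝ, s' < 1 ∧ 0 < s' ∧ ∀ J : Finset σ, s * J.card ≤
      s' * Module.finrank ℝ (Submodule.span ℝ (dφ '' (J : Set σ))) := by
    have h1 : ∀ᶠ s' in 𝓝[<] (1 : ℝ), ∀ J : Finset σ, s * J.card ≤
        s' * Module.finrank ℝ (Submodule.span ℝ (dφ '' (J : Set σ))) := by
      rw [eventually_all]
      intro J
      rcases J.eq_empty_or_nonempty with rfl | hJ
      · have h0 : ∀ᶠ s' in 𝓝[<] (1 : ℝ), 0 < s' :=
          (eventually_gt_nhds one_pos).filter_mono nhdsWithin_le_nhds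
        filter_upwards [h0] with s' hs'
        simp only [Finset.card_empty, Nat.cast_zero, mul_zero]
        exact mul_nonneg hs'.le (Nat.cast_nonneg _)
      · have h2 := hr J hJ
        have h3 : Tendsto (fun s' : ℝ => s' *
            (Module.finrank ℝ (Submodule.span ℝ (dφ '' (J : Set σ))) : ℝ)) (𝓝[<] 1)
            (𝓝 (1 * (Module.finrank ℝ (Submodule.span ℝ (dφ '' (J : Set σ))) : ℝ))) :=
          (tendsto_id.mul_const _).mono_left nhdsWithin_le_nhds
        rw [one_mul] at h3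
        filter_upwards [h3.eventually_const_lt h2] with s' hs' using hs'.le
    have h2 : ∀ᶠ s' in 𝓝[<] (1 : ℝ), s' < 1 := eventually_mem_nhdsWithin
    have h3 : ∀ᶠ s' in 𝓝[<] (1 : ℝ), 0 < s' :=
      (eventually_gt_nhds one_pos).filter_mono nhdsWithin_le_nhds
    obtain ⟨s', ⟨ha, hb⟩, hc⟩ := ((h1.and h2).and h3).exists
    exact ⟨s', hb, hc, ha⟩
  have hIall : ∀ I : Finset σ, ∃ W ∈ 𝓝 u₀, ∃ C : ℝ≥0∞, C ≠ ⊤ ∧ (LinearIndepOn ℝ dφ (I : Set σ) →
      ∀ S : Set (Fin m → ℝ), MeasurableSet S → S ⊆ W → ∀ v ∈ S,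
      (∀ᵐ u ∂(volume.restrict S), ∀ j ∈ I, φ u j ≠ φ v j) ∧
      ∫⁻ u in S, ENNReal.ofReal (∏ j ∈ I, |φ u j - φ v j| ^ (-s')) ≤ C) := by
    intro I
    by_cases hI : LinearIndepOn ℝ dφ (I : Set σ)
    · obtain ⟨W, hW, C, hC, h⟩ := local_indep hφ hU₁ hcont hI hs'0.le hs'1
      exact ⟨W, hW, C, hC, fun _ => h⟩
    · exact ⟨Set.univ, univ_mem, 0, ENNReal.zero_ne_top, fun h => absurd h hI⟩
  choose W hW C hC hWC using hIall
  have hnear : ∀ᶠ u in 𝓝 u₀, ∀ j, |φ u j - φ u₀ j| < 1 / 2 := by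
    rw [eventually_all]
    intro j
    have h1 : ContinuousAt (fun u => φ u j) u₀ := ((contDiffAt_pi.1 hφ) j).continuousAt
    have h2 := Metric.tendsto_nhds.1 h1 (1 / 2) (by norm_num)
    filter_upwards [h2] with u hu
    rwa [Real.dist_eq] at hu
  refine ⟨(⋂ I, W I) ∩ U₁ ∩ {u | ∀ j, |φ u j - φ u₀ j| < 1 / 2},
    inter_mem (inter_mem (Filter.iInter_mem.2 hW) hU₁) hnear, ∑ I : Finset σ, C I,
    ENNReal.sum_ne_top.2 fun I _ => hC I, ?_⟩
  intro S hS hSW v hv
  have hSI : ∀ I, S ⊆ W I := fun I x hx => Set.mem_iInter.1 (hSW hx).1.1 I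
  have hne : ∀ᵐ u ∂(volume.restrict S), ∀ j, φ u j ≠ φ v j := by
    rw [ae_all_iff]
    intro j
    have hj : LinearIndepOn ℝ dφ (({j} : Finset σ) : Set σ) := by
      rw [Finset.coe_singleton, linearIndepOn_singleton_iff]
      intro h0
      have h1 := hr {j} (Finset.singleton_nonempty j)
      rw [Finset.coe_singleton, Set.image_singleton, h0, Submodule.span_zero_singleton, finrank_bot,
        Finset.card_singleton] at h1
      simp only [Nat.cast_one, mul_one, Nat.cast_zero] at h1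
      exact absurd h1 (not_lt.2 hs0.le)
    filter_upwards [(hWC {j} hj S hS (hSI {j}) v hv).1] with u hu
    exact hu j (Finset.mem_singleton_self j)
  refine ⟨hne, ?_⟩
  set F : Finset (Finset σ) := Finset.univ.filter fun I => LinearIndepOn ℝ dφ (I : Set σ) with hF
  have hφm : AEMeasurable φ (volume.restrict S) :=
    (hcont.mono fun x hx => (hSW hx).1.2).aemeasurable hS
  have hmeas : ∀ I : Finset σ, AEMeasurable
      (fun u => ENNReal.ofReal (∏ j ∈ I, |φ u j - φ v j| ^ (-s'))) (volume.restrict S) := by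
    intro I
    have h1 : Measurable fun w : σ → ℝ => ENNReal.ofReal (∏ j ∈ I, |w j - φ v j| ^ (-s')) := by
      refine ENNReal.measurable_ofReal.comp ?_
      refine Finset.measurable_prod _ fun j _ => ?_
      have h2 : Measurable fun w : σ → ℝ => |w j - φ v j| := by
        have := (measurable_pi_apply (X := fun _ : σ => ℝ) j).sub_const (φ v j)
        exact this.abs
      exact h2.pow_const _
    exact h1.comp_aemeasurable hφm
  calc ∫⁻ u in S, ENNReal.ofReal (∏ j, |φ u j - φ v j| ^ (-s))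
      ≤ ∫⁻ u in S, ∑ I ∈ F, ENNReal.ofReal (∏ j ∈ I, |φ u j - φ v j| ^ (-s')) := by
        refine lintegral_mono_ae ?_
        filter_upwards [hne, ae_restrict_mem hS] with u hu huS
        rw [← ENNReal.ofReal_sum_of_nonneg fun I _ =>
          Finset.prod_nonneg fun j _ => Real.rpow_nonneg (abs_nonneg _) _]
        refine ENNReal.ofReal_le_ofReal ?_
        refine prod_rpow_le dφ hs'0.le hr' F (fun I hI => ?_) (fun j => |φ u j - φ v j|)
          (fun j => abs_pos.2 (sub_ne_zero.2 (hu j))) fun j => ?_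
        · rw [hF, Finset.mem_filter]
          exact ⟨Finset.mem_univ _, hI⟩
        · have h1 := (hSW huS).2 j
          have h2 := (hSW hv).2 j
          have h3 : φ u j - φ v j = (φ u j - φ u₀ j) - (φ v j - φ u₀ j) := by ring
          rw [h3]
          exact (abs_sub _ _).trans (by linarith)
    _ = ∑ I ∈ F, ∫⁻ u in S, ENNReal.ofReal (∏ j ∈ I, |φ u j - φ v j| ^ (-s')) :=
        lintegral_finsetSum' _ fun I _ => hmeas I
    _ ≤ ∑ I ∈ F, C I := by
        refine Finset.sum_le_sum fun I hI => ?_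
        exact (hWC I (Finset.mem_filter.1 hI).2 S hS (hSI I) v hv).2
    _ ≤ ∑ I : Finset σ, C I := Finset.sum_le_sum_of_subset (Finset.subset_univ F)

end Pool.Agent.J6H91.TZ
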