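import Pool.Agent.J6H91.TZ.Pat.All
import Pool.Agent.J6H91.TZ.Cmp
import Pool.Agent.J6H9.TZ.Ene
import Pool.Agent.J6H24.TZ.Ker

/-!
# Measures of finite energy on smooth patches of torus zeros
-/

set_option autoImplicit false

namespace Pool.Agent.J6H91.TZ

open MvPolynomial MeasureTheory Filter Topology Pool.Agent.J6H91.Cyc Pool.Agent.J6H9.TZE
open scoped ENNReal NNReal ComplexConjugate

variable {m : ℕ} {σ : Type} [Fintype σ] [DecidableEq σ]

/-- the point `e^(ix)` -/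
noncomputable def ec (x : ℝ) : ℂ := Complex.exp (x * Complex.I)

theorem norm_ec (x : ℝ) : ‖ec x‖ = 1 := Complex.norm_exp_ofReal_mul_I x

theorem ec_mul_conj (x y : ℝ) : ec x * conj (ec y) = ec (x - y) := by
  unfold ec
  rw [← Complex.exp_conj, ← Complex.exp_add, map_mul, Complex.conj_I, Complex.conj_ofReal]
  congr 1
  push_cast
  ring

theorem norm_one_sub_ec {x : ℝ} (h : |x| ≤ Real.pi) : 2 / Real.pi * |x| ≤ ‖1 - ec x‖ := by
  have h1 : ‖1 - ec x‖ = ‖2 * Real.sin (x / 2)‖ := by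
    rw [← Complex.norm_exp_I_mul_ofReal_sub_one, norm_sub_rev]
    unfold ec
    rw [mul_comm]
  have h2 := Real.mul_abs_le_abs_sin (x := x / 2) (by
    rw [abs_div, abs_two]
    linarith)
  rw [h1, norm_mul, Real.norm_eq_abs, Real.norm_eq_abs, abs_two]
  rw [abs_div, abs_two] at h2
  linarith

/-- the kernel at a pair of points -/
theorem norm_G_ec {t : ℝ} (ht0 : 0 < t) (ht1 : t < 1) : ∃ C : ℝ, 0 ≤ C ∧ ∀ (K : ℕ) (x y : ℝ),
    x ≠ y → |x - y| ≤ Real.pi → ‖G t K (ec x * conj (ec y))‖ ≤ C * |x - y| ^ (-(1 - t)) := by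
  obtain ⟨C, hC⟩ := Pool.Agent.J6H24.TZ.ker t ht0 ht1
  refine ⟨|C| * (2 / Real.pi) ^ (t - 1), by positivity, fun K x y hxy hle => ?_⟩
  have hpos : 0 < |x - y| := abs_pos.2 (sub_ne_zero.2 hxy)
  have hpi : 0 < 2 / Real.pi := by positivity
  have h1 := norm_one_sub_ec hle
  have h2 : 0 < ‖1 - ec (x - y)‖ := lt_of_lt_of_le (mul_pos hpi hpos) h1
  have hne : ec (x - y) ≠ 1 := by
    intro h
    rw [h, sub_self, norm_zero] at h2
    exact lt_irrefl _ h2
  rw [ec_mul_conj]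
  have h3 : ‖G t K (ec (x - y))‖ ≤ C * ‖1 - ec (x - y)‖ ^ (t - 1) := hC K _ (norm_ec _) hne
  calc ‖G t K (ec (x - y))‖ ≤ C * ‖1 - ec (x - y)‖ ^ (t - 1) := h3
    _ ≤ |C| * ‖1 - ec (x - y)‖ ^ (t - 1) :=
        mul_le_mul_of_nonneg_right (le_abs_self C) (by positivity)
    _ ≤ |C| * (2 / Real.pi * |x - y|) ^ (t - 1) := by
        refine mul_le_mul_of_nonneg_left ?_ (abs_nonneg C)
        exact Real.rpow_le_rpow_of_nonpos (mul_pos hpi hpos) h1 (by linarith)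
    _ = |C| * (2 / Real.pi) ^ (t - 1) * |x - y| ^ (-(1 - t)) := by
        rw [Real.mul_rpow hpi.le hpos.le, mul_assoc]
        congr 3
        ring

/-- the energy over a box -/
theorem energy_box {Ω : Type} [MeasurableSpace Ω] {ν : Measure Ω} [IsFiniteMeasure ν] {t : ℝ} {K : ℕ}
    {z : Ω → σ → ℂ} (hz : ∀ κ : σ → ℕ, Integrable (fun u => ∏ j, z u j ^ κ j) ν) {C : ℝ}
    (hC : ∀ᵐ v ∂ν, ‖∫ u, ∏ j, G t K (z u j * conj (z v j)) ∂ν‖ ≤ C) :
    ∑ κ ∈ Fintype.piFinset (fun _ : σ => Finset.range K), (∏ j, ((κ j : ℝ) + 1) ^ t)⁻¹ *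
      ‖∫ u, ∏ j, z u j ^ κ j ∂ν‖ ^ 2 ≤ C * ν.real Set.univ := by
  set a : (σ → ℕ) → ℂ := fun κ => ∫ u, ∏ j, z u j ^ κ j ∂ν with ha
  set c : (σ → ℕ) → ℝ := fun κ => (∏ j, ((κ j : ℝ) + 1) ^ t)⁻¹ with hc
  have hG : ∀ u v : Ω, ∏ j, G t K (z u j * conj (z v j)) =
      ∑ κ ∈ Fintype.piFinset (fun _ : σ => Finset.range K),
        (c κ : ℂ) * conj (∏ j, z v j ^ κ j) * ∏ j, z u j ^ κ j := by
    intro u v
    unfold G
    rw [Finset.prod_univ_sum]
    refine Finset.sum_congr rfl fun κ _ => ?_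
    have h4 : (c κ : ℂ) = ∏ j, (((((κ j : ℕ) : ℝ) + 1) ^ (-t) : ℝ) : ℂ) := by
      rw [hc]
      simp only
      rw [← Finset.prod_inv_distrib, Complex.ofReal_prod]
      refine Finset.prod_congr rfl fun j _ => ?_
      rw [Real.rpow_neg (by positivity)]
    rw [h4, map_prod, ← Finset.prod_mul_distrib, ← Finset.prod_mul_distrib]
    refine Finset.prod_congr rfl fun j _ => ?_
    rw [map_pow, mul_pow]
    ring
  have hinner : ∀ v : Ω, ∫ u, ∏ j, G t K (z u j * conj (z v j)) ∂ν =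
      ∑ κ ∈ Fintype.piFinset (fun _ : σ => Finset.range K),
        (c κ : ℂ) * a κ * conj (∏ j, z v j ^ κ j) := by
    intro v
    simp_rw [hG _ v]
    rw [integral_finsetSum _ fun κ _ => (hz κ).const_mul _]
    refine Finset.sum_congr rfl fun κ _ => ?_
    rw [integral_const_mul]
    ring
  have hconj : ∀ κ : σ → ℕ, Integrable (fun v => conj (∏ j, z v j ^ κ j)) ν := fun κ =>
    (Complex.conjCLE.toContinuousLinearMap.integrable_comp (hz κ))
  have htot : ∫ v, ∫ u, ∏ j, G t K (z u j * conj (z v j)) ∂ν ∂ν =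
      ((∑ κ ∈ Fintype.piFinset (fun _ : σ => Finset.range K), c κ * ‖a κ‖ ^ 2 : ℝ) : ℂ) := by
    simp_rw [hinner]
    rw [integral_finsetSum _ fun κ _ => (hconj κ).const_mul _, Complex.ofReal_sum]
    refine Finset.sum_congr rfl fun κ _ => ?_
    rw [integral_const_mul, integral_conj, mul_assoc, Complex.mul_conj, Complex.normSq_eq_norm_sq]
    push_cast
    rfl
  have h5 := norm_integral_le_of_norm_le_const hC
  rw [htot, Complex.norm_real, Real.norm_eq_abs] at h5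
  exact (le_abs_self _).trans h5

end Pool.Agent.J6H91.TZ
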