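import Pool.Agent.J6H91.TZ.Pat.Meas

/-!
# Local integrability of products of inverse powers of coordinate differences
-/

set_option autoImplicit false

namespace Pool.Agent.J6H91.TZ

open MeasureTheory Filter Topology
open scoped ENNReal NNReal

variable {m : ℕ} {σ : Type} [Fintype σ] [DecidableEq σ]

/-- the coordinate functions of `φ`, followed by the coordinates of `ℝ^m` -/
def comp (φ : (Fin m → ℝ) → (σ → ℝ)) (b : σ ⊕ Fin m) (u : Fin m → ℝ) : ℝ := Sum.elim (φ u) u b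

theorem comp_contDiffAt {φ : (Fin m → ℝ) → (σ → ℝ)} {u₀ : Fin m → ℝ} (hφ : ContDiffAt ℝ 1 φ u₀)
    (b : σ ⊕ Fin m) : ContDiffAt ℝ 1 (comp φ b) u₀ := by
  rcases b with j | i
  · exact (contDiffAt_pi.1 hφ) j
  · exact (contDiffAt_pi.1 (contDiffAt_id (𝕜 := ℝ) (n := 1) (x := u₀))) i

/-- extension to local coordinates -/
theorem exists_coords {φ : (Fin m → ℝ) → (σ → ℝ)} {u₀ : Fin m → ℝ} (hφ : ContDiffAt ℝ 1 φ u₀)
    {I : Finset σ} (hI : LinearIndepOn ℝ (fun j => fderiv ℝ (fun u => φ u j) u₀) (I : Set σ)) :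
    ∃ B : Finset (σ ⊕ Fin m), B.card = m ∧ (∀ j ∈ I, Sum.inl j ∈ B) ∧ ∃ (K : ℝ≥0), ∃ U ∈ 𝓝 u₀,
      AntilipschitzWith K (U.domRestrict fun u (b : B) => comp φ b u) := by
  classical
  set v : σ ⊕ Fin m → ((Fin m → ℝ) →L[ℝ] ℝ) := fun b => fderiv ℝ (comp φ b) u₀ with hv
  have hinr : ∀ i : Fin m, v (Sum.inr i) = ContinuousLinearMap.proj i := by
    intro i
    have h1 : comp φ (Sum.inr i) = (ContinuousLinearMap.proj (R := ℝ) (φ := fun _ : Fin m => ℝ) i :
        (Fin m → ℝ) → ℝ) := by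
      funext u
      rfl
    rw [hv]
    simp only
    rw [h1]
    exact ContinuousLinearMap.fderiv _
  have hI' : LinearIndepOn ℝ v (Sum.inl '' (I : Set σ)) :=
    LinearIndepOn.image_of_comp Sum.inl v hI
  obtain ⟨b, -, hIb, hspan, hind⟩ := exists_linearIndepOn_extension hI' (Set.subset_univ _)
  have hbfin : b.Finite := Set.toFinite b
  set B : Finset (σ ⊕ Fin m) := hbfin.toFinset with hB
  have hBc : (B : Set (σ ⊕ Fin m)) = b := hbfin.coe_toFinset
  rw [← hBc] at hspan hind hIb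
  have hli : LinearIndependent ℝ (fun i : B => v i) := hind
  -- the derivative is injective
  set Ψ : (Fin m → ℝ) →L[ℝ] (B → ℝ) := ContinuousLinearMap.pi fun b : B => v b with hΨ
  have hinj : Function.Injective Ψ := by
    rw [injective_iff_map_eq_zero]
    intro x hx
    have h1 : ∀ w ∈ Submodule.span ℝ (v '' (B : Set (σ ⊕ Fin m))), w x = 0 := by
      intro w hw
      induction hw using Submodule.span_induction with
      | mem w hw =>
        obtain ⟨b, hb, rfl⟩ := hw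
        have := congrFun hx ⟨b, hb⟩
        exact this
      | zero => rfl
      | add w₁ w₂ _ _ h₁ h₂ =>
        rw [add_apply, h₁, h₂, add_zero]
      | smul a w _ h =>
        rw [smul_apply, h, smul_zero]
    funext i
    have h2 := h1 (v (Sum.inr i)) (hspan ⟨Sum.inr i, Set.mem_univ _, rfl⟩)
    rw [hinr i] at h2
    exact h2
  have hdual : Module.finrank ℝ ((Fin m → ℝ) →L[ℝ] ℝ) = m := by
    rw [← (LinearMap.toContinuousLinearMap (𝕜 := ℝ) (E := Fin m → ℝ) (F' := ℝ)).finrank_eq,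
      Module.finrank_linearMap, Module.finrank_self, mul_one, Module.finrank_fin_fun]
  have hcard : B.card = m := by
    apply le_antisymm
    · have h1 := hli.fintype_card_le_finrank
      rwa [Fintype.card_coe, hdual] at h1
    · have h1 := LinearMap.finrank_le_finrank_of_injective (f := (Ψ : (Fin m → ℝ) →ₗ[ℝ] (B → ℝ))) hinj
      rwa [Module.finrank_fin_fun, Module.finrank_fintype_fun_eq_card, Fintype.card_coe] at h1
  refine ⟨B, hcard, fun j hj => ?_, ?_⟩
  · exact hIb ⟨j, hj, rfl⟩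
  have hfr : Module.finrank ℝ (Fin m → ℝ) = Module.finrank ℝ (B → ℝ) := by
    rw [Module.finrank_fin_fun, Module.finrank_fintype_fun_eq_card, Fintype.card_coe, hcard]
  set e : (Fin m → ℝ) ≃L[ℝ] (B → ℝ) :=
    (LinearMap.linearEquivOfInjective (Ψ : (Fin m → ℝ) →ₗ[ℝ] (B → ℝ)) hinj hfr).toContinuousLinearEquiv
    with he
  have heΨ : (e : (Fin m → ℝ) →L[ℝ] (B → ℝ)) = Ψ := by
    ext x
    rfl
  have hstrict : HasStrictFDerivAt (fun u (b : B) => comp φ b u)
      (e : (Fin m → ℝ) →L[ℝ] (B → ℝ)) u₀ := by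
    rw [heΨ, hasStrictFDerivAt_pi']
    intro b
    exact (comp_contDiffAt hφ b).hasStrictFDerivAt (by norm_num)
  rcases subsingleton_or_nontrivial (Fin m → ℝ) with hsub | hnt
  · refine ⟨0, Set.univ, univ_mem, ?_⟩
    exact AntilipschitzWith.of_subsingleton
  · have hN : 0 < ‖(e.symm : (B → ℝ) →L[ℝ] (Fin m → ℝ))‖₊⁻¹ := by
      rw [inv_pos]
      exact e.nnnorm_symm_pos
    obtain ⟨U, hU, hap⟩ := hstrict.approximates_deriv_on_nhds
      (c := ‖(e.symm : (B → ℝ) →L[ℝ] (Fin m → ℝ))‖₊⁻¹ / 2) (Or.inr (half_pos hN))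
    exact ⟨_, U, hU, hap.antilipschitz (Or.inr (half_lt_self hN))⟩

theorem one_le_prod_real {β : Type} (B : Finset β) (g : β → ℝ) (h : ∀ b ∈ B, 1 ≤ g b) :
    1 ≤ ∏ b ∈ B, g b :=
  Finset.prod_induction g (fun x => 1 ≤ x) (fun _ _ ha hb => one_le_mul_of_one_le_of_one_le ha hb)
    le_rfl h

/-- the integral for an independent set of coordinates -/
theorem local_indep {φ : (Fin m → ℝ) → (σ → ℝ)} {u₀ : Fin m → ℝ} (hφ : ContDiffAt ℝ 1 φ u₀)
    {U₁ : Set (Fin m → ℝ)} (hU₁ : U₁ ∈ 𝓝 u₀) (hcont : ContinuousOn φ U₁)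
    {I : Finset σ} (hI : LinearIndepOn ℝ (fun j => fderiv ℝ (fun u => φ u j) u₀) (I : Set σ))
    {s : ℝ} (hs0 : 0 ≤ s) (hs1 : s < 1) :
    ∃ W ∈ 𝓝 u₀, ∃ C : ℝ≥0∞, C ≠ ⊤ ∧ ∀ S : Set (Fin m → ℝ), MeasurableSet S → S ⊆ W → ∀ v ∈ S,
      (∀ᵐ u ∂(volume.restrict S), ∀ j ∈ I, φ u j ≠ φ v j) ∧
      ∫⁻ u in S, ENNReal.ofReal (∏ j ∈ I, |φ u j - φ v j| ^ (-s)) ≤ C := by
  obtain ⟨B, hB, hIB, K, U, hU, hanti⟩ := exists_coords hφ hI
  have hnear : ∀ᶠ u in 𝓝 u₀, ∀ b, |comp φ b u - comp φ b u₀| < 1 / 2 := by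
    rw [eventually_all]
    intro b
    have h1 := (comp_contDiffAt hφ b).continuousAt
    have h2 := Metric.tendsto_nhds.1 h1 (1 / 2) (by norm_num)
    filter_upwards [h2] with u hu
    rwa [Real.dist_eq] at hu
  refine ⟨U ∩ U₁ ∩ {u | ∀ b, |comp φ b u - comp φ b u₀| < 1 / 2},
    inter_mem (inter_mem hU hU₁) hnear,
    (K : ℝ≥0∞) ^ (m : ℝ) * ENNReal.ofReal ((∫ x, hk s x) ^ m), ?_, ?_⟩
  · exact ENNReal.mul_ne_top (ENNReal.rpow_ne_top_of_nonneg (Nat.cast_nonneg m) ENNReal.coe_ne_top)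
      ENNReal.ofReal_ne_top
  intro S hS hSW v hv
  set f : (Fin m → ℝ) → (B → ℝ) := fun u b => comp φ b u with hf
  have hantiS : AntilipschitzWith K (S.domRestrict f) := by
    intro x y
    exact hanti ⟨x, (hSW x.2).1.1⟩ ⟨y, (hSW y.2).1.1⟩
  have hβ : Fintype.card B = m := by rw [Fintype.card_coe, hB]
  have hfc : ContinuousOn f S := by
    rw [continuousOn_pi]
    rintro ⟨b, hb⟩
    rcases b with j | i
    · exact (continuousOn_pi.1 (hcont.mono fun x hx => (hSW hx).1.2)) j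
    · exact (continuous_apply i).continuousOn
  have hfm : AEMeasurable f (volume.restrict S) := hfc.aemeasurable hS
  have hne := ae_ne hS hβ hantiS (f v)
  refine ⟨?_, ?_⟩
  · filter_upwards [hne] with u hu j hj
    exact hu ⟨Sum.inl j, hIB j hj⟩
  · refine le_trans ?_ (lintegral_prod_hk_le hs1 hS hβ hantiS hfm (f v))
    refine lintegral_mono_ae ?_
    filter_upwards [hne, ae_restrict_mem hS] with u hu huS
    refine ENNReal.ofReal_le_ofReal ?_
    have hle1 : ∀ b : B, |f u b - f v b| ≤ 1 := by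
      intro b
      have h1 := (hSW huS).2 b
      have h2 := (hSW hv).2 b
      have h3 : f u b - f v b = (comp φ b u - comp φ b u₀) - (comp φ b v - comp φ b u₀) := by
        rw [hf]
        ring
      rw [h3]
      exact (abs_sub _ _).trans (by linarith)
    have h1 : ∏ b : B, hk s (f u b - f v b) = ∏ b ∈ B, |comp φ b u - comp φ b v| ^ (-s) := by
      rw [← Finset.prod_coe_sort B fun b => |comp φ b u - comp φ b v| ^ (-s)]
      refine Finset.prod_congr rfl fun b _ => ?_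
      exact hk_eq (sub_ne_zero.2 (hu b)) (hle1 b)
    set I' : Finset (σ ⊕ Fin m) := I.map ⟨Sum.inl, Sum.inl_injective⟩ with hI'
    have h2 : ∏ j ∈ I, |φ u j - φ v j| ^ (-s) =
        ∏ b ∈ I', |comp φ b u - comp φ b v| ^ (-s) := by
      rw [hI', Finset.prod_map]
      rfl
    have hsub : I' ⊆ B := by
      intro b hb
      rw [Finset.mem_map] at hb
      obtain ⟨j, hj, rfl⟩ := hb
      exact hIB j hj
    rw [h1, h2, ← Finset.prod_sdiff hsub]
    have h3 : 1 ≤ ∏ b ∈ B \ I', |comp φ b u - comp φ b v| ^ (-s) := by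
      refine one_le_prod_real _ _ fun b hb => ?_
      have hbB := (Finset.mem_sdiff.1 hb).1
      have hpos : 0 < |comp φ b u - comp φ b v| := abs_pos.2 (sub_ne_zero.2 (hu ⟨b, hbB⟩))
      exact Real.one_le_rpow_of_pos_of_le_one_of_nonpos hpos (hle1 ⟨b, hbB⟩) (by linarith)
    have h4 : 0 ≤ ∏ b ∈ I', |comp φ b u - comp φ b v| ^ (-s) :=
      Finset.prod_nonneg fun b _ => Real.rpow_nonneg (abs_nonneg _) _
    nlinarith

end Pool.Agent.J6H91.TZ
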