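import Mathlib

/-!
# Integrals over antilipschitz images
-/

set_option autoImplicit false

namespace Pool.Agent.J6H91.TZ

open MeasureTheory Filter Topology
open scoped ENNReal NNReal

/-- `x^(-s)` on `(0, 1]` -/
noncomputable def hg (s : ℝ) : ℝ → ℝ := Set.indicator (Set.Ioc 0 1) fun x => x ^ (-s)

/-- `|x|^(-s)` for `0 < |x| ≤ 1` -/
noncomputable def hk (s : ℝ) (x : ℝ) : ℝ := hg s x + hg s (-x)

theorem hg_nonneg (s x : ℝ) : 0 ≤ hg s x :=
  Set.indicator_nonneg (fun _ hx => Real.rpow_nonneg hx.1.le _) x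

theorem hk_nonneg (s x : ℝ) : 0 ≤ hk s x := add_nonneg (hg_nonneg s x) (hg_nonneg s (-x))

theorem hk_eq {s x : ℝ} (h0 : x ≠ 0) (h1 : |x| ≤ 1) : hk s x = |x| ^ (-s) := by
  unfold hk hg
  rcases lt_or_gt_of_ne h0 with h | h
  · rw [Set.indicator_of_notMem (by simp only [Set.mem_Ioc, not_and]; intro h'; linarith),
      Set.indicator_of_mem, abs_of_neg h, zero_add]
    rw [abs_of_neg h] at h1
    exact ⟨by linarith, h1⟩
  · rw [Set.indicator_of_mem, Set.indicator_of_notMem
      (by simp only [Set.mem_Ioc, not_and]; intro h'; linarith), abs_of_pos h, add_zero]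
    rw [abs_of_pos h] at h1
    exact ⟨h, h1⟩

theorem hg_integrable {s : ℝ} (hs : s < 1) : Integrable (hg s) := by
  unfold hg
  rw [integrable_indicator_iff measurableSet_Ioc]
  have h := intervalIntegral.intervalIntegrable_rpow' (a := 0) (b := 1) (r := -s) (by linarith)
  rwa [intervalIntegrable_iff_integrableOn_Ioc_of_le zero_le_one] at h

theorem hk_integrable {s : ℝ} (hs : s < 1) : Integrable (hk s) :=
  (hg_integrable hs).add (hg_integrable hs).comp_neg

variable {m : ℕ} {β : Type} [Fintype β]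

/-- volumes of preimages under antilipschitz maps -/
theorem volume_preimage_le {S : Set (Fin m → ℝ)} {f : (Fin m → ℝ) → (β → ℝ)} {K : ℝ≥0}
    (hβ : Fintype.card β = m) (hf : AntilipschitzWith K (S.domRestrict f)) (A : Set (β → ℝ)) :
    volume (f ⁻¹' A ∩ S) ≤ (K : ℝ≥0∞) ^ (m : ℝ) * volume A := by
  have h1 : f ⁻¹' A ∩ S = Subtype.val '' ((S.domRestrict f) ⁻¹' A) := by
    ext x
    constructor
    · rintro ⟨hx1, hx2⟩
      exact ⟨⟨x, hx2⟩, hx1, rfl⟩
    · rintro ⟨y, hy, rfl⟩
      exact ⟨hy, y.2⟩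
  have h2 : (Measure.hausdorffMeasure (m : ℝ) : Measure (Fin m → ℝ)) = volume := by
    have := hausdorffMeasure_pi_real (ι := Fin m)
    rwa [Fintype.card_fin] at this
  have h3 : (Measure.hausdorffMeasure (m : ℝ) : Measure (β → ℝ)) = volume := by
    have := hausdorffMeasure_pi_real (ι := β)
    rwa [hβ] at this
  rw [← h2, ← h3, h1, isometry_subtype_coe.hausdorffMeasure_image (Or.inl (Nat.cast_nonneg m))]
  exact hf.hausdorffMeasure_preimage_le (Nat.cast_nonneg m) A

theorem map_restrict_le {S : Set (Fin m → ℝ)} (hS : MeasurableSet S) {f : (Fin m → ℝ) → (β → ℝ)}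
    {K : ℝ≥0} (hβ : Fintype.card β = m) (hf : AntilipschitzWith K (S.domRestrict f))
    (hfm : AEMeasurable f (volume.restrict S)) :
    Measure.map f (volume.restrict S) ≤ ((K : ℝ≥0∞) ^ (m : ℝ)) • (volume : Measure (β → ℝ)) := by
  rw [Measure.le_iff]
  intro A hA
  rw [Measure.map_apply_of_aemeasurable hfm hA, Measure.restrict_apply' hS, Measure.smul_apply,
    smul_eq_mul]
  exact volume_preimage_le hβ hf A

/-- the integral of the product of the singular functions -/
theorem lintegral_prod_hk_le {s : ℝ} (hs : s < 1) {S : Set (Fin m → ℝ)} (hS : MeasurableSet S)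
    {f : (Fin m → ℝ) → (β → ℝ)} {K : ℝ≥0} (hβ : Fintype.card β = m)
    (hf : AntilipschitzWith K (S.domRestrict f)) (hfm : AEMeasurable f (volume.restrict S))
    (c : β → ℝ) :
    ∫⁻ u in S, ENNReal.ofReal (∏ b, hk s (f u b - c b)) ≤
      (K : ℝ≥0∞) ^ (m : ℝ) * ENNReal.ofReal ((∫ x, hk s x) ^ m) := by
  have hint : Integrable (fun w : β → ℝ => ∏ b, hk s (w b - c b)) := by
    have := Integrable.fintype_prod_dep (𝕜 := ℝ) (E := fun _ : β => ℝ)
      (f := fun b x => hk s (x - c b)) (μ := fun _ : β => (volume : Measure ℝ))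
      (fun b => (hk_integrable hs).comp_sub_right (c b))
    exact this
  have hval : ∫ w : β → ℝ, ∏ b, hk s (w b - c b) = (∫ x, hk s x) ^ m := by
    have h1 := integral_fintype_prod_volume_eq_prod (𝕜 := ℝ) (E := fun _ : β => ℝ)
      (fun (b : β) (x : ℝ) => hk s (x - c b))
    rw [h1]
    have h2 : ∀ b : β, ∫ x, hk s (x - c b) = ∫ x, hk s x := fun b =>
      integral_sub_right_eq_self (hk s) (c b)
    rw [Finset.prod_congr rfl fun b _ => h2 b, Finset.prod_const, Finset.card_univ, hβ]
  have hle := map_restrict_le hS hβ hf hfm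
  have hac : Measure.map f (volume.restrict S) ≪ (volume : Measure (β → ℝ)) := by
    refine (Measure.absolutelyContinuous_of_le hle).trans ?_
    exact Measure.smul_absolutelyContinuous
  have hae : AEMeasurable (fun w : β → ℝ => ENNReal.ofReal (∏ b, hk s (w b - c b)))
      (Measure.map f (volume.restrict S)) :=
    (hint.aestronglyMeasurable.aemeasurable.ennreal_ofReal).mono_ac hac
  calc ∫⁻ u in S, ENNReal.ofReal (∏ b, hk s (f u b - c b))
      = ∫⁻ w, ENNReal.ofReal (∏ b, hk s (w b - c b)) ∂(Measure.map f (volume.restrict S)) :=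
        (lintegral_map' hae hfm).symm
    _ ≤ ∫⁻ w, ENNReal.ofReal (∏ b, hk s (w b - c b))
          ∂(((K : ℝ≥0∞) ^ (m : ℝ)) • (volume : Measure (β → ℝ))) := lintegral_mono' hle le_rfl
    _ = (K : ℝ≥0∞) ^ (m : ℝ) * ∫⁻ w : β → ℝ, ENNReal.ofReal (∏ b, hk s (w b - c b)) := by
        rw [lintegral_smul_measure, smul_eq_mul]
    _ = _ := by
        rw [← ofReal_integral_eq_lintegral_ofReal hint
          (Eventually.of_forall fun w => Finset.prod_nonneg fun b _ => hk_nonneg s _), hval]

/-- almost everywhere the coordinates are different from given numbers -/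
theorem ae_ne {S : Set (Fin m → ℝ)} (hS : MeasurableSet S)
    {f : (Fin m → ℝ) → (β → ℝ)} {K : ℝ≥0} (hβ : Fintype.card β = m)
    (hf : AntilipschitzWith K (S.domRestrict f)) (c : β → ℝ) :
    ∀ᵐ u ∂(volume.restrict S), ∀ b, f u b ≠ c b := by
  rw [ae_all_iff]
  intro b
  rw [ae_iff]
  have h1 : {u | ¬ f u b ≠ c b} = f ⁻¹' {w | w b = c b} := by
    ext u
    simp
  rw [h1, Measure.restrict_apply' hS]
  have h2 := volume_preimage_le hβ hf {w : β → ℝ | w b = c b}
  have h3 : volume {w : β → ℝ | w b = c b} = 0 :=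
    Measure.pi_hyperplane (fun _ : β => (volume : Measure ℝ)) b (c b)
  rw [h3, mul_zero] at h2
  exact nonpos_iff_eq_zero.1 h2

end Pool.Agent.J6H91.TZ
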