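import Pool.Agent.J6H91.TZ.Pat.Energy
import Pool.Agent.J6H91.TZ.Main
import Pool.Agent.J6H91.TZ.Thn

/-!
# Necessary conditions from smooth patches of the torus zero set
-/

set_option autoImplicit false

namespace Pool.Agent.J6H91.TZ

open MvPolynomial MeasureTheory Filter Topology Pool.Agent.J6H91.Cyc Pool.Agent.J6H9.TZE
open scoped ENNReal NNReal ComplexConjugate

variable {m : ℕ} {σ : Type} [Fintype σ] [DecidableEq σ]

theorem functional_eq_integral {Ω : Type} [MeasurableSpace Ω] {ν : Measure Ω} {z : Ω → σ → ℂ}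
    (hz : ∀ κ : σ → ℕ, Integrable (fun u => ∏ j, z u j ^ κ j) ν) (f : MvPolynomial σ ℂ) :
    functional (fun k => ∫ u, ∏ j, z u j ^ k j ∂ν) f = ∫ u, eval (z u) f ∂ν := by
  unfold functional
  simp_rw [MvPolynomial.eval_eq']
  rw [integral_finsetSum _ fun (k : σ →₀ ℕ) _ => (hz k).const_mul (coeff k f)]
  refine Finset.sum_congr rfl fun k _ => ?_
  rw [integral_const_mul]

theorem box_le {b : (σ → ℕ) → ℝ} (hb : ∀ κ, 0 ≤ b κ) (K : ℕ) (S : Finset (σ →₀ ℕ))
    (hS : ∀ k ∈ S, ∀ j, k j < K) :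
    ∑ k ∈ S, b k ≤ ∑ κ ∈ Fintype.piFinset (fun _ : σ => Finset.range K), b κ := by
  have h1 : ∑ k ∈ S, b k = ∑ κ ∈ S.image (fun k : σ →₀ ℕ => (k : σ → ℕ)), b κ := by
    rw [Finset.sum_image (fun a _ b _ h => DFunLike.coe_injective h)]
  rw [h1]
  refine Finset.sum_le_sum_of_subset_of_nonneg ?_ fun κ _ _ => hb κ
  intro κ hκ
  obtain ⟨k, hk, rfl⟩ := Finset.mem_image.mp hκ
  rw [Fintype.mem_piFinset]
  exact fun j => Finset.mem_range.mpr (hS k hk j)

/-- a smooth patch with many independent coordinates: not cyclic -/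
theorem not_approxOne_of_patch {t : ℝ} (ht0 : 0 < t) (ht1 : t < 1) {P : MvPolynomial σ ℂ}
    {φ : (Fin m → ℝ) → (σ → ℝ)} {u₀ : Fin m → ℝ} (hφ : ContDiffAt ℝ 1 φ u₀)
    {U₁ : Set (Fin m → ℝ)} (hU₁ : U₁ ∈ 𝓝 u₀) (hcont : ContinuousOn φ U₁)
    (hP : ∀ u ∈ U₁, eval (fun j => ec (φ u j)) P = 0)
    (hr : ∀ J : Finset σ, J.Nonempty → (1 - t) * J.card <
      Module.finrank ℝ (Submodule.span ℝ ((fun j => fderiv ℝ (fun u => φ u j) u₀) '' (J : Set σ)))) :
    ¬ ApproxOne t P := by
  obtain ⟨W, hW, C, hC, hWC⟩ := local_all hφ hU₁ hcont (sub_pos.2 ht1) hr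
  have hnear : ∀ᶠ u in 𝓝 u₀, ∀ j, |φ u j - φ u₀ j| < 1 := by
    rw [eventually_all]
    intro j
    have h1 : ContinuousAt (fun u => φ u j) u₀ := ((contDiffAt_pi.1 hφ) j).continuousAt
    have h2 := Metric.tendsto_nhds.1 h1 1 one_pos
    filter_upwards [h2] with u hu
    rwa [Real.dist_eq] at hu
  obtain ⟨ρ, hρ, hball⟩ := Metric.mem_nhds_iff.1 (inter_mem (inter_mem hW hU₁) hnear)
  set S := Metric.ball u₀ ρ with hS
  have hSm : MeasurableSet S := Metric.isOpen_ball.measurableSet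
  set ν : Measure (Fin m → ℝ) := volume.restrict S with hν
  have hfin : IsFiniteMeasure ν := ⟨by
    rw [hν, Measure.restrict_apply_univ]
    exact measure_ball_lt_top⟩
  have hφc : ContinuousOn φ S := hcont.mono fun x hx => (hball hx).1.2
  have hz : ∀ κ : σ → ℕ, Integrable (fun u => ∏ j, ec (φ u j) ^ κ j) ν := by
    intro κ
    refine Integrable.of_bound (C := 1) ?_ (Eventually.of_forall fun u => ?_)
    · have h1 : Continuous fun w : σ → ℝ => ∏ j, ec (w j) ^ κ j := by
        unfold ec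
        fun_prop
      exact h1.comp_aestronglyMeasurable (hφc.aestronglyMeasurable hSm)
    · rw [norm_prod]
      refine le_of_eq (Finset.prod_eq_one fun j _ => ?_)
      rw [norm_pow, norm_ec, one_pow]
  obtain ⟨C', hC', hG⟩ := norm_G_ec ht0 ht1
  set D : ℝ := (ENNReal.ofReal (C' ^ Fintype.card σ) * C).toReal with hD
  have hDtop : ENNReal.ofReal (C' ^ Fintype.card σ) * C ≠ ⊤ :=
    ENNReal.mul_ne_top ENNReal.ofReal_ne_top hC
  have hinner : ∀ K : ℕ, ∀ᵐ v ∂ν, ‖∫ u, ∏ j, G t K (ec (φ u j) * conj (ec (φ v j))) ∂ν‖ ≤ D := by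
    intro K
    filter_upwards [ae_restrict_mem hSm] with v hv
    obtain ⟨hne, hint⟩ := hWC S hSm (fun x hx => (hball hx).1.1) v hv
    refine (norm_integral_le_lintegral_norm _).trans (ENNReal.toReal_mono hDtop ?_)
    calc ∫⁻ u, ENNReal.ofReal ‖∏ j, G t K (ec (φ u j) * conj (ec (φ v j)))‖ ∂ν
        ≤ ∫⁻ u, ENNReal.ofReal (C' ^ Fintype.card σ) *
            ENNReal.ofReal (∏ j, |φ u j - φ v j| ^ (-(1 - t))) ∂ν := by
          refine lintegral_mono_ae ?_
          filter_upwards [hne, ae_restrict_mem hSm] with u hu huS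
          rw [← ENNReal.ofReal_mul (by positivity)]
          refine ENNReal.ofReal_le_ofReal ?_
          rw [norm_prod]
          calc ∏ j, ‖G t K (ec (φ u j) * conj (ec (φ v j)))‖
              ≤ ∏ j, (C' * |φ u j - φ v j| ^ (-(1 - t))) := by
                refine Finset.prod_le_prod (fun j _ => norm_nonneg _) fun j _ => ?_
                refine hG K _ _ (hu j) ?_
                have h1 := (hball huS).2 j
                have h2 := (hball hv).2 j
                have h3 : φ u j - φ v j = (φ u j - φ u₀ j) - (φ v j - φ u₀ j) := by ring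
                rw [h3]
                refine (abs_sub _ _).trans ?_
                have := Real.pi_gt_three
                linarith
            _ = _ := by
                rw [Finset.prod_mul_distrib, Finset.prod_const, Finset.card_univ]
      _ = ENNReal.ofReal (C' ^ Fintype.card σ) *
            ∫⁻ u, ENNReal.ofReal (∏ j, |φ u j - φ v j| ^ (-(1 - t))) ∂ν :=
          lintegral_const_mul' _ _ ENNReal.ofReal_ne_top
      _ ≤ _ := by
          gcongr
  have hsum : Summable fun k : σ →₀ ℕ =>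
      (weight t k)⁻¹ * ‖∫ u, ∏ j, ec (φ u j) ^ k j ∂ν‖ ^ 2 := by
    refine summable_of_sum_le (c := D * ν.real Set.univ) (fun k => ?_) fun T => ?_
    · have := weight_nonneg t k
      positivity
    · obtain ⟨K, hK⟩ : ∃ K : ℕ, ∀ k ∈ T, ∀ j, k j < K := by
        refine ⟨(T.sup fun k => ∑ j, k j) + 1, fun k hk j => Nat.lt_succ_of_le ?_⟩
        refine le_trans ?_ (Finset.le_sup (f := fun k : σ →₀ ℕ => ∑ j, k j) hk)
        exact Finset.single_le_sum (f := fun j => k j) (fun _ _ => Nat.zero_le _) (Finset.mem_univ j)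
      refine le_trans ?_ (energy_box hz (hinner K))
      exact box_le (b := fun κ => (∏ j, ((κ j : ℝ) + 1) ^ t)⁻¹ *
        ‖∫ u, ∏ j, ec (φ u j) ^ κ j ∂ν‖ ^ 2) (fun κ => by positivity) K T hK
  have hfun : ∀ f : MvPolynomial σ ℂ,
      functional (fun k => ∫ u, ∏ j, ec (φ u j) ^ k j ∂ν) f =
        ∫ u, eval (fun j => ec (φ u j)) f ∂ν :=
    functional_eq_integral hz
  have h1 : functional (fun k => ∫ u, ∏ j, ec (φ u j) ^ k j ∂ν) (1 : MvPolynomial σ ℂ) =
      (ν.real Set.univ : ℂ) := by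
    rw [hfun]
    simp
  refine not_approxOne_of_functional hsum (fun q => ?_) ?_
  · rw [hfun, hfun]
    refine integral_congr_ae ?_
    filter_upwards [ae_restrict_mem hSm] with u hu
    rw [map_sub, map_mul, hP u (hball hu).1.2, mul_zero, sub_zero]
  · rw [h1]
    have h2 : 0 < ν.real Set.univ := by
      rw [measureReal_def]
      refine ENNReal.toReal_pos ?_ (measure_ne_top _ _)
      rw [hν, Measure.restrict_apply_univ]
      exact (Metric.measure_ball_pos volume u₀ hρ).ne'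
    exact_mod_cast h2.ne'

theorem rankIn_le_card (M : Set (σ →₀ ℕ)) (J : Finset σ) : rankIn M J ≤ J.card := by
  unfold rankIn
  have h1 : Submodule.span ℚ ((toQ : (σ →₀ ℕ) → σ → ℚ) '' {k | k ∈ M ∧ k.support ⊆ J}) ≤
      Submodule.span ℚ ((J.image fun j => (Pi.single j 1 : σ → ℚ) : Finset (σ → ℚ)) :
        Set (σ → ℚ)) := by
    rw [Submodule.span_le]
    rintro _ ⟨k, ⟨-, hk⟩, rfl⟩
    have h2 : toQ k = ∑ j ∈ J, (k j : ℚ) • (Pi.single j 1 : σ → ℚ) := by
      funext i
      rw [Finset.sum_apply]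
      simp only [Pi.smul_apply, Pi.single_apply, smul_eq_mul, mul_ite, mul_one, mul_zero]
      rw [Finset.sum_ite_eq]
      split_ifs with hi
      · rfl
      · have : k i = 0 := by
          by_contra h0
          exact hi (hk (Finsupp.mem_support_iff.2 h0))
        change ((k i : ℕ) : ℚ) = 0
        rw [this, Nat.cast_zero]
    rw [h2]
    refine Submodule.sum_mem _ fun j hj => Submodule.smul_mem _ _ (Submodule.subset_span ?_)
    rw [Finset.coe_image]
    exact ⟨j, hj, rfl⟩
  exact (Submodule.finrank_mono h1).trans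
    ((finrank_span_finset_le_card _).trans Finset.card_image_le)

/-- polynomials with zeros on the torus are not cyclic for `t > 1` -/
theorem le_one_of_torus_zero {t : ℝ} {P : MvPolynomial σ ℂ} (h : ShiftCyclic t P) {a : σ → ℂ}
    (ha : ∀ j, ‖a j‖ = 1) (h0 : eval a P = 0) : t ≤ 1 := by
  obtain ⟨J, hJ, hle⟩ := (cosets_necessary h).2 ⊤ a ha (fun z hz => by
    have : z = a := by
      funext i
      have h1 := hz.2 (Pi.single i 1) (AddSubgroup.mem_top _)
      rw [Finset.prod_eq_single i (fun j _ hj => by rw [Pi.single_eq_of_ne hj, zpow_zero])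
        (fun hi => absurd (Finset.mem_univ i) hi), Pi.single_eq_same, zpow_one] at h1
      have h2 : a i ≠ 0 := by
        intro h
        have := ha i
        rw [h, norm_zero] at this
        exact zero_ne_one this
      rwa [div_eq_one_iff_eq h2] at h1
    rw [this, h0])
  have h1 : (0 : ℝ) < J.card := by exact_mod_cast hJ.card_pos
  have h2 : (rankIn {k : σ →₀ ℕ | toZ k ∈ (⊤ : AddSubgroup (σ → ℤ))} J : ℝ) ≤ J.card := by
    exact_mod_cast rankIn_le_card _ J
  by_contra hcon
  nlinarith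

/-- **The necessary condition from smooth patches.** -/
theorem patch_condition {t : ℝ} {P : MvPolynomial σ ℂ} (hP : ShiftCyclic t P)
    {φ : (Fin m → ℝ) → (σ → ℝ)} {U : Set (Fin m → ℝ)} (hU : IsOpen U) (hφ : ContDiffOn ℝ 1 φ U)
    (hz : ∀ u ∈ U, eval (fun j => Complex.exp (φ u j * Complex.I)) P = 0)
    {u₀ : Fin m → ℝ} (hu₀ : u₀ ∈ U) :
    ∃ J : Finset σ, J.Nonempty ∧
      (Module.finrank ℝ (Submodule.span ℝ
        ((fun j => fderiv ℝ (fun u => φ u j) u₀) '' (J : Set σ))) : ℝ) ≤ (1 - t) * J.card := by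
  classical
  by_contra hcon
  push Not at hcon
  have hz0 := hz u₀ hu₀
  have ht1 : t ≤ 1 := le_one_of_torus_zero hP (fun j => norm_ec (φ u₀ j)) hz0
  rcases isEmpty_or_nonempty σ with hσ | ⟨⟨j₀⟩⟩
  · exact not_approxOne_of_zero (z := fun j => Complex.exp (φ u₀ j * Complex.I))
      (fun j => (hσ.false j).elim) hz0 (shiftCyclic_iff.1 hP)
  rcases le_or_gt t 0 with ht | ht
  · have h1 := hcon {j₀} (Finset.singleton_nonempty j₀)
    rw [Finset.card_singleton, Nat.cast_one, mul_one] at h1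
    have h2 : Module.finrank ℝ (Submodule.span ℝ
        ((fun j => fderiv ℝ (fun u => φ u j) u₀) '' (({j₀} : Finset σ) : Set σ))) ≤ 1 := by
      have h4 := finrank_span_finset_le_card (R := ℝ)
        ({fderiv ℝ (fun u => φ u j₀) u₀} : Finset ((Fin m → ℝ) →L[ℝ] ℝ))
      rw [Finset.coe_singleton, Finset.card_singleton] at h4
      rw [Finset.coe_singleton, Set.image_singleton]
      exact h4
    have h3 : (Module.finrank ℝ (Submodule.span ℝ
        ((fun j => fderiv ℝ (fun u => φ u j) u₀) '' (({j₀} : Finset σ) : Set σ))) : ℝ) ≤ 1 := by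
      exact_mod_cast h2
    linarith
  -- a smaller exponent
  obtain ⟨τ, hτt, hτ0, hτ⟩ : ∃ τ : ℝ, τ < t ∧ 0 < τ ∧ ∀ J : Finset σ, J.Nonempty →
      (1 - τ) * J.card < Module.finrank ℝ (Submodule.span ℝ
        ((fun j => fderiv ℝ (fun u => φ u j) u₀) '' (J : Set σ))) := by
    have h1 : ∀ᶠ (τ : ℝ) in 𝓝[<] t, ∀ J : Finset σ, J.Nonempty →
        (1 - τ) * J.card < Module.finrank ℝ (Submodule.span ℝ
        ((fun j => fderiv ℝ (fun u => φ u j) u₀) '' (J : Set σ))) := by
      rw [eventually_all]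
      intro J
      by_cases hJ : J.Nonempty
      · have h3 : Tendsto (fun τ : ℝ => (1 - τ) * (J.card : ℝ)) (𝓝[<] t)
            (𝓝 ((1 - t) * (J.card : ℝ))) :=
          ((tendsto_const_nhds.sub tendsto_id).mul_const _).mono_left nhdsWithin_le_nhds
        filter_upwards [h3.eventually_lt_const (hcon J hJ)] with τ hτ _ using hτ
      · exact Eventually.of_forall fun τ h => absurd h hJ
    have h2 : ∀ᶠ τ in 𝓝[<] t, τ < t := eventually_mem_nhdsWithin
    have h3 : ∀ᶠ τ in 𝓝[<] t, 0 < τ := (eventually_gt_nhds ht).filter_mono nhdsWithin_le_nhds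
    obtain ⟨τ, ⟨ha, hb⟩, hc⟩ := ((h1.and h2).and h3).exists
    exact ⟨τ, hb, hc, ha⟩
  exact not_approxOne_of_patch hτ0 (hτt.trans_le ht1) (hφ.contDiffAt (hU.mem_nhds hu₀))
    (hU.mem_nhds hu₀) hφ.continuousOn hz hτ (approxOne_mono hτt.le (shiftCyclic_iff.1 hP))

end Pool.Agent.J6H91.TZ
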